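import Pool.Agent.Helper869_KR.Core

namespace Pool.Agent.Helper869_KR

variable {L : Type*} [LieRing L]

def comR (v : L) (S : AddSubgroup L) : AddSubgroup L where
  carrier := {u | ⁅u, v⁆ ∈ S}
  zero_mem' := by
    show ⁅(0 : L), v⁆ ∈ S
    rw [zero_lie]; exact S.zero_mem
  add_mem' := by
    intro a b ha hb
    show ⁅a + b, v⁆ ∈ S
    rw [add_lie]; exact S.add_mem ha hb
  neg_mem' := by
    intro a ha
    show ⁅-a, v⁆ ∈ S
    rw [neg_lie]; exact S.neg_mem ha

def comL (v : L) (S : AddSubgroup L) : AddSubgroup L where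
  carrier := {u | ⁅v, u⁆ ∈ S}
  zero_mem' := by
    show ⁅v, (0 : L)⁆ ∈ S
    rw [lie_zero]; exact S.zero_mem
  add_mem' := by
    intro a b ha hb
    show ⁅v, a + b⁆ ∈ S
    rw [lie_add]; exact S.add_mem ha hb
  neg_mem' := by
    intro a ha
    show ⁅v, -a⁆ ∈ S
    rw [lie_neg]; exact S.neg_mem ha

theorem mem_comR {v u : L} {S : AddSubgroup L} : u ∈ comR v S ↔ ⁅u, v⁆ ∈ S := Iff.rfl
theorem mem_comL {v u : L} {S : AddSubgroup L} : u ∈ comL v S ↔ ⁅v, u⁆ ∈ S := Iff.rfl

theorem Gen_skew {n k c : ℕ} {X : ℕ → AddSubgroup L} {x y : L} (h : Gen n X k c ⁅y, x⁆) :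
    Gen n X k c ⁅x, y⁆ := by
  rw [← lie_skew]; exact Gen.neg h

/-- two elements whose degrees add up to `n` commute -/
theorem comm {n : ℕ} {X : ℕ → AddSubgroup L} (h : GF n X) {i j : ℕ} {x y : L} (hi : i < n)
    (hj : j < n) (hx : x ∈ X i) (hy : y ∈ X j) (hij : i + j = n) : ⁅x, y⁆ = 0 :=
  h.zero _ (h.mul i j 0 x y hi hj (by omega) hx hy (Or.inr (by omega)))

theorem F1 {n k : ℕ} {X : ℕ → AddSubgroup L} (h : GF n X) (hn : 1 < n) {x : L} (hx : x ∈ X 1)
    {c : ℕ} {u : L} (hu : Gen n X k c u) : ∀ c', c < n → c' < n → (1 + c = c' ∨ 1 + c = c' + n) →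
      Gen n X k c' ⁅x, u⁆ := by
  induction hu with
  | @base i u h1 h2 h3 =>
    intro c' hc hc' hcc
    rcases Nat.eq_zero_or_pos c' with h0 | h0
    · subst h0
      have := h.zero _ (h.mul 1 i 0 x u hn h2 (by omega) hx h3 (by omega))
      rw [this]; exact Gen.zero
    · exact Gen.base (by omega) hc' (h.mul 1 i c' x u hn h2 hc' hx h3 hcc)
  | @br i j c a b hi hj hc hij g1 g2 ih1 ih2 =>
    intro c' _ hc' hcc
    obtain ⟨i', hi', hi''⟩ : ∃ i', i' < n ∧ (1 + i = i' ∨ 1 + i = i' + n) := by
      by_cases hh : 1 + i < n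
      · exact ⟨1 + i, hh, Or.inl rfl⟩
      · exact ⟨1 + i - n, by omega, Or.inr (by omega)⟩
    obtain ⟨j', hj', hj''⟩ : ∃ j', j' < n ∧ (1 + j = j' ∨ 1 + j = j' + n) := by
      by_cases hh : 1 + j < n
      · exact ⟨1 + j, hh, Or.inl rfl⟩
      · exact ⟨1 + j - n, by omega, Or.inr (by omega)⟩
    rw [leibniz_lie x a b]
    exact Gen.add (Gen.br hi' hj hc' (by omega) (ih1 i' hi hi' hi'') g2)
      (Gen.br hi hj' hc' (by omega) g1 (ih2 j' hj hj' hj''))
  | zero =>
    intro c' _ _ _
    rw [lie_zero]; exact Gen.zero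
  | add g1 g2 ih1 ih2 =>
    intro c' h1 h2 h3
    rw [lie_add]; exact Gen.add (ih1 c' h1 h2 h3) (ih2 c' h1 h2 h3)
  | neg g ih =>
    intro c' h1 h2 h3
    rw [lie_neg]; exact Gen.neg (ih c' h1 h2 h3)

theorem Gen_D {n k c : ℕ} {X : ℕ → AddSubgroup L} (h : GF n X) {x : L}
    (hx : Gen n (D n X) k c x) : Gen n X k c x :=
  Gen_trans (fun _ h1 h2 _ h3 => Gen.base h1 h2 (D_le h h2 h3)) hx

theorem P_two {n : ℕ} (hn : 4 ≤ n) : P L n 2 2 := by
  intro X hX c hc x hx
  have hx2 : x ∈ D n (D n X) c := hx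
  have hD : GF n (D n X) := GF_D hX (by omega)
  have hDD : GF n (D n (D n X)) := GF_D hD (by omega)
  have R : ∀ v ∈ X (n - 1), ∀ u ∈ D n X 2, Gen n X 2 1 ⁅u, v⁆ := by
    intro v hv u hu
    have key : D n X 2 ≤ comR v (GenS n X 2 1) := by
      refine D_induction ?_
      intro i j x y hi hj hx hy hij
      show Gen n X 2 1 ⁅⁅x, y⁆, v⁆
      by_cases h1 : i = 1 ∧ j = 1
      · obtain ⟨rfl, rfl⟩ := h1
        have e1 := comm hX hi (by omega) hx hv (by omega)
        have e2 := comm hX hi (by omega) hy hv (by omega)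
        rw [lie_lie, e1, e2]
        simp only [lie_zero, sub_zero]
        exact Gen.zero
      · by_cases h2 : i = 0
        · subst h2
          have := hX.zero x hx
          subst this
          simp only [zero_lie]; exact Gen.zero
        · by_cases h3 : j = 0
          · subst h3
            have := hX.zero y hy
            subst this
            simp only [zero_lie, lie_zero]; exact Gen.zero
          · exact Gen.br (i := 2) (j := n - 1) (by omega) (by omega) (by omega) (by omega)
              (Gen.br hi hj (by omega) hij (Gen.base (by omega) hi hx)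
                (Gen.base (by omega) hj hy))
              (Gen.base (by omega) (by omega) hv)
    exact key hu
  by_cases c0 : c = 0
  · subst c0
    have := hDD.zero x hx2
    subst this; exact Gen.zero
  by_cases c1 : c = 1
  · subst c1
    have key : D n (D n X) 1 ≤ GenS n X 2 1 := by
      refine D_induction ?_
      intro i j x y hi hj hx hy hij
      show Gen n X 2 1 ⁅x, y⁆
      by_cases h2 : i = 0
      · subst h2
        have := hD.zero x hx
        subst this
        simp only [zero_lie]; exact Gen.zero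
      by_cases h3 : j = 0
      · subst h3
        have := hD.zero y hy
        subst this
        simp only [lie_zero]; exact Gen.zero
      by_cases h4 : i = 2
      · subst h4
        obtain rfl : j = n - 1 := by omega
        exact R y (D_le hX hj hy) x hx
      by_cases h5 : j = 2
      · subst h5
        obtain rfl : i = n - 1 := by omega
        exact Gen_skew (R x (D_le hX hi hx) y hy)
      exact Gen.br hi hj (by omega) hij (Gen.base (by omega) hi (D_le hX hi hx))
        (Gen.base (by omega) hj (D_le hX hj hy))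
    exact key hx2
  by_cases c2 : c = 2
  · subst c2
    exact claimA' hX (by omega) (fun c hc x hx => P_one (by omega) X hX c hc x hx) x hx2
  · exact Gen.base (by omega) hc (iter_le hX (by omega) 2 hc hx)

end Pool.Agent.Helper869_KR
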