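import Mathlib

namespace Pool.Agent.Helper869_KR

variable {L : Type*} [LieRing L]

/-- A family of additive subgroups indexed by residues `0,…,n-1`, closed under brackets
(degrees added modulo `n`), with zero component equal to zero. -/
structure GF (n : ℕ) (X : ℕ → AddSubgroup L) : Prop where
  zero : ∀ x ∈ X 0, x = 0
  mul : ∀ i j c x y, i < n → j < n → c < n → x ∈ X i → y ∈ X j →
    (i + j = c ∨ i + j = c + n) → ⁅x, y⁆ ∈ X c

/-- graded derived subring -/
def D (n : ℕ) (X : ℕ → AddSubgroup L) (c : ℕ) : AddSubgroup L :=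
  AddSubgroup.closure {z | ∃ i j x y, i < n ∧ j < n ∧ x ∈ X i ∧ y ∈ X j ∧
    (i + j = c ∨ i + j = c + n) ∧ ⁅x, y⁆ = z}

inductive Gen (n : ℕ) (X : ℕ → AddSubgroup L) (k : ℕ) : ℕ → L → Prop
  | base {i : ℕ} {x : L} : k < i → i < n → x ∈ X i → Gen n X k i x
  | br {i j c : ℕ} {x y : L} : i < n → j < n → c < n → (i + j = c ∨ i + j = c + n) →
      Gen n X k i x → Gen n X k j y → Gen n X k c ⁅x, y⁆
  | zero {c : ℕ} : Gen n X k c 0
  | add {c : ℕ} {x y : L} : Gen n X k c x → Gen n X k c y → Gen n X k c (x + y)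
  | neg {c : ℕ} {x : L} : Gen n X k c x → Gen n X k c (-x)

def GenS (n : ℕ) (X : ℕ → AddSubgroup L) (k c : ℕ) : AddSubgroup L where
  carrier := {x | Gen n X k c x}
  zero_mem' := Gen.zero
  add_mem' := fun ha hb => Gen.add ha hb
  neg_mem' := fun ha => Gen.neg ha

theorem mem_GenS {n : ℕ} {X : ℕ → AddSubgroup L} {k c : ℕ} {x : L} :
    x ∈ GenS n X k c ↔ Gen n X k c x := Iff.rfl

theorem Gen_mem {n : ℕ} {X : ℕ → AddSubgroup L} (h : GF n X) {k c : ℕ} {x : L}
    (hx : Gen n X k c x) : x ∈ X c := by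
  induction hx with
  | base _ _ hx => exact hx
  | br hi hj hc hij _ _ ih1 ih2 => exact h.mul _ _ _ _ _ hi hj hc ih1 ih2 hij
  | zero => exact AddSubgroup.zero_mem _
  | add _ _ ih1 ih2 => exact AddSubgroup.add_mem _ ih1 ih2
  | neg _ ih => exact AddSubgroup.neg_mem _ ih

theorem D_le {n : ℕ} {X : ℕ → AddSubgroup L} (h : GF n X) {c : ℕ} (hc : c < n) :
    D n X c ≤ X c := by
  rw [D, AddSubgroup.closure_le]
  rintro z ⟨i, j, x, y, hi, hj, hx, hy, hij, rfl⟩
  exact h.mul _ _ _ _ _ hi hj hc hx hy hij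

theorem D_mul {n : ℕ} {X : ℕ → AddSubgroup L} {i j c : ℕ} {x y : L} (hi : i < n) (hj : j < n)
    (hx : x ∈ X i) (hy : y ∈ X j) (hij : i + j = c ∨ i + j = c + n) : ⁅x, y⁆ ∈ D n X c :=
  AddSubgroup.subset_closure ⟨i, j, x, y, hi, hj, hx, hy, hij, rfl⟩

theorem GF_D {n : ℕ} {X : ℕ → AddSubgroup L} (h : GF n X) (hn : 0 < n) : GF n (D n X) where
  zero := fun x hx => h.zero x (D_le h hn hx)
  mul := fun i j c x y hi hj _ hx hy hij =>
    D_mul hi hj (D_le h hi hx) (D_le h hj hy) hij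

theorem GF_iter {n : ℕ} {X : ℕ → AddSubgroup L} (h : GF n X) (hn : 0 < n) (d : ℕ) :
    GF n ((D n)^[d] X) := by
  induction d with
  | zero => exact h
  | succ d ih => rw [Function.iterate_succ_apply']; exact GF_D ih hn

theorem iter_le {n : ℕ} {X : ℕ → AddSubgroup L} (h : GF n X) (hn : 0 < n) (d : ℕ) {c : ℕ}
    (hc : c < n) : (D n)^[d] X c ≤ X c := by
  induction d with
  | zero => exact le_rfl
  | succ d ih =>
    rw [Function.iterate_succ_apply']; exact (D_le (GF_iter h hn d) hc).trans ih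

/-- the property `L^{(d)} ⊆ ⟨L_{k+1},…,L_{n-1}⟩` for all graded families in `L`. -/
def P (L : Type*) [LieRing L] (n d k : ℕ) : Prop :=
  ∀ X : ℕ → AddSubgroup L, GF n X → ∀ c, c < n → ∀ x ∈ (D n)^[d] X c, Gen n X k c x

theorem claimA {n k : ℕ} {X : ℕ → AddSubgroup L} (h : GF n X) (hk : k + 1 < n) {j : ℕ} {v : L}
    (hv : Gen n X k j v) : ∀ i u, i < n → j < n → (i + j = k + 1 ∨ i + j = k + 1 + n) →
      Gen n X k i u → Gen n X (k + 1) (k + 1) ⁅u, v⁆ := by
  induction hv with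
  | @base j v hkj hjn hv =>
    intro i u hi hj hij hu
    by_cases hjk : j = k + 1
    · have hi0 : i = 0 := by omega
      subst hi0
      have := h.zero u (Gen_mem h hu)
      subst this
      rw [zero_lie]; exact Gen.zero
    · have h1 : k + 1 < i := by omega
      exact Gen.br hi hj hk hij (Gen.base h1 hi (Gen_mem h hu)) (Gen.base (by omega) hj hv)
  | @br j1 j2 j v1 v2 hj1 hj2 hjn hjj g1 g2 ih1 ih2 =>
    intro i u hi hj hij hu
    obtain ⟨a, ha, ha'⟩ : ∃ a, a < n ∧ (i + j1 = a ∨ i + j1 = a + n) := by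
      by_cases hh : i + j1 < n
      · exact ⟨i + j1, hh, Or.inl rfl⟩
      · exact ⟨i + j1 - n, by omega, Or.inr (by omega)⟩
    obtain ⟨b, hb, hb'⟩ : ∃ b, b < n ∧ (i + j2 = b ∨ i + j2 = b + n) := by
      by_cases hh : i + j2 < n
      · exact ⟨i + j2, hh, Or.inl rfl⟩
      · exact ⟨i + j2 - n, by omega, Or.inr (by omega)⟩
    have e : ⁅u, ⁅v1, v2⁆⁆ = ⁅⁅u, v1⁆, v2⁆ + -⁅⁅u, v2⁆, v1⁆ := by
      rw [leibniz_lie u v1 v2, lie_skew]
    rw [e]
    refine Gen.add (ih2 a _ ha hj2 (by omega) (Gen.br hi hj1 ha ha' hu g1))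
      (Gen.neg (ih1 b _ hb hj1 (by omega) (Gen.br hi hj2 hb hb' hu g2)))
  | zero =>
    intro i u _ _ _ _
    rw [lie_zero]; exact Gen.zero
  | add g1 g2 ih1 ih2 =>
    intro i u hi hj hij hu
    rw [lie_add]; exact Gen.add (ih1 i u hi hj hij hu) (ih2 i u hi hj hij hu)
  | neg g ih =>
    intro i u hi hj hij hu
    rw [lie_neg]; exact Gen.neg (ih i u hi hj hij hu)

/-- elements of the derived family in degree `c`, checked on generators -/
theorem D_induction {n : ℕ} {X : ℕ → AddSubgroup L} {c : ℕ} {Q : AddSubgroup L}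
    (hQ : ∀ i j x y, i < n → j < n → x ∈ X i → y ∈ X j → (i + j = c ∨ i + j = c + n) →
      ⁅x, y⁆ ∈ Q) : D n X c ≤ Q := by
  rw [D, AddSubgroup.closure_le]
  rintro z ⟨i, j, x, y, hi, hj, hx, hy, hij, rfl⟩
  exact hQ i j x y hi hj hx hy hij

/-- claim A for the derived family -/
theorem claimA' {n k : ℕ} {X Y : ℕ → AddSubgroup L} (h : GF n X) (hk : k + 1 < n)
    (hY : ∀ c, c < n → ∀ x ∈ Y c, Gen n X k c x) :
    ∀ x ∈ D n Y (k + 1), Gen n X (k + 1) (k + 1) x := by
  intro x hx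
  have := D_induction (n := n) (X := Y) (c := k + 1) (Q := GenS n X (k + 1) (k + 1)) (by
    intro i j u v hi hj hu hv hij
    exact claimA h hk (hY j hj v hv) i u hi hj hij (hY i hi u hu))
  exact this hx

theorem Gen_trans {n k k' : ℕ} {X N : ℕ → AddSubgroup L}
    (hN : ∀ i, k < i → i < n → ∀ x ∈ N i, Gen n X k' i x) {c : ℕ} {x : L}
    (hx : Gen n N k c x) : Gen n X k' c x := by
  induction hx with
  | base h1 h2 h3 => exact hN _ h1 h2 _ h3
  | br hi hj hc hij _ _ ih1 ih2 => exact Gen.br hi hj hc hij ih1 ih2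
  | zero => exact Gen.zero
  | add _ _ ih1 ih2 => exact Gen.add ih1 ih2
  | neg _ ih => exact Gen.neg ih

theorem P_step {n d k : ℕ} (hk : k + 1 < n) (hP : P L n d k) : P L n (2 * d + 1) (k + 1) := by
  intro X hX c hc x hx
  have hn : 0 < n := by omega
  have e : (D n)^[2 * d + 1] X = (D n)^[d] ((D n)^[d + 1] X) := by
    rw [← Function.iterate_add_apply]; congr 1; omega
  rw [e] at hx
  have h1 := hP _ (GF_iter hX hn (d + 1)) c hc x hx
  refine Gen_trans ?_ h1
  intro i hi hin y hy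
  by_cases hik : i = k + 1
  · subst hik
    rw [Function.iterate_succ_apply'] at hy
    exact claimA' hX hk (fun c hc x hx => hP X hX c hc x hx) y hy
  · exact Gen.base (by omega) hin (iter_le hX hn _ hin hy)

theorem P_zero (n : ℕ) : P L n 0 0 := by
  intro X hX c hc x hx
  rcases Nat.eq_zero_or_pos c with rfl | h
  · have := hX.zero x hx
    subst this
    exact Gen.zero
  · exact Gen.base h hc hx

theorem P_one {n : ℕ} (hn : 1 < n) : P L n 1 1 := by
  have := P_step (L := L) (n := n) (d := 0) (k := 0) hn (P_zero n)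
  simpa using this

end Pool.Agent.Helper869_KR
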