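import Pool.Agent.Helper869_KR.Three

namespace Pool.Agent.Helper869_KR

variable {L : Type*} [LieRing L]

/-- `[X,Y]` -/
def brk (X Y : AddSubgroup L) : AddSubgroup L :=
  AddSubgroup.closure {z | ∃ x ∈ X, ∃ y ∈ Y, ⁅x, y⁆ = z}

/-- derived series -/
def der (X : AddSubgroup L) : ℕ → AddSubgroup L
  | 0 => X
  | k + 1 => brk (der X k) (der X k)

theorem brk_le {X Y Z : AddSubgroup L} (h : ∀ x ∈ X, ∀ y ∈ Y, ⁅x, y⁆ ∈ Z) : brk X Y ≤ Z := by
  rw [brk, AddSubgroup.closure_le]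
  rintro z ⟨x, hx, y, hy, rfl⟩
  exact h x hx y hy

theorem brk_mem {X Y : AddSubgroup L} {x y : L} (hx : x ∈ X) (hy : y ∈ Y) : ⁅x, y⁆ ∈ brk X Y :=
  AddSubgroup.subset_closure ⟨x, hx, y, hy, rfl⟩

theorem brk_mono {X Y X' Y' : AddSubgroup L} (h1 : X ≤ X') (h2 : Y ≤ Y') :
    brk X Y ≤ brk X' Y' :=
  brk_le fun _ hx _ hy => brk_mem (h1 hx) (h2 hy)

theorem der_mono {X Y : AddSubgroup L} (h : X ≤ Y) (k : ℕ) : der X k ≤ der Y k := by
  induction k with
  | zero => exact h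
  | succ k ih => exact brk_mono ih ih

theorem der_add (X : AddSubgroup L) (a b : ℕ) : der X (a + b) = der (der X a) b := by
  induction b with
  | zero => rfl
  | succ b ih =>
    show brk (der X (a + b)) (der X (a + b)) = brk _ _
    rw [ih]

/-- bracket of two suprema of families -/
theorem brk_iSup {ι κ : Type*} (X : ι → AddSubgroup L) (Y : κ → AddSubgroup L)
    (Z : AddSubgroup L) (h : ∀ i j, ∀ x ∈ X i, ∀ y ∈ Y j, ⁅x, y⁆ ∈ Z) :
    brk (⨆ i, X i) (⨆ j, Y j) ≤ Z := by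
  refine brk_le ?_
  intro x hx y hy
  have h1 : ∀ i, ∀ x ∈ X i, ⁅x, y⁆ ∈ Z := by
    intro i x hx
    have : (⨆ j, Y j) ≤ comL x Z := iSup_le fun j => fun y hy => h i j x hx y hy
    exact this hy
  have : (⨆ i, X i) ≤ comR y Z := iSup_le fun i => fun x hx => h1 i x hx
  exact this hx

/-- total subgroup of a family indexed by `0,…,n-1` -/
def tot (n : ℕ) (X : ℕ → AddSubgroup L) : AddSubgroup L := ⨆ i : Fin n, X i

theorem brk_tot {n : ℕ} (X : ℕ → AddSubgroup L) (hn : 0 < n) :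
    brk (tot n X) (tot n X) ≤ tot n (D n X) := by
  refine brk_iSup _ _ _ ?_
  intro i j x hx y hy
  obtain ⟨c, hc, hc'⟩ : ∃ c, c < n ∧ ((i : ℕ) + j = c ∨ (i : ℕ) + j = c + n) := by
    have := i.2
    have := j.2
    by_cases hh : (i : ℕ) + j < n
    · exact ⟨i + j, hh, Or.inl rfl⟩
    · exact ⟨i + j - n, by omega, Or.inr (by omega)⟩
  exact (le_iSup (fun i : Fin n => D n X i) ⟨c, hc⟩) (D_mul i.2 j.2 hx hy hc')

theorem der_tot {n : ℕ} (X : ℕ → AddSubgroup L) (hn : 0 < n) (d : ℕ) :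
    der (tot n X) d ≤ tot n ((D n)^[d] X) := by
  induction d with
  | zero => exact le_rfl
  | succ d ih =>
    rw [Function.iterate_succ_apply']
    exact (brk_mono ih ih).trans (brk_tot _ hn)

/-- If `x` is a combination of products of elements of `X (n-1)` and `v` has degree `b` with
`b + c ≤ n`, then `[v,x] = 0`. -/
theorem kill {n : ℕ} {X : ℕ → AddSubgroup L} (h : GF n X) (hn : 1 < n) {c : ℕ} {x : L}
    (hx : Gen n X (n - 2) c x) : ∀ b v, v ∈ X b → b < n → c < n → b + c ≤ n → ⁅v, x⁆ = 0 := by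
  induction hx with
  | @base i x h1 h2 h3 =>
    intro b v hv hb _ hbc
    by_cases h0 : b = 0
    · subst h0
      rw [h.zero v hv, zero_lie]
    · exact comm h hb h2 hv h3 (by omega)
  | @br i j c x y hi hj hc hij g1 g2 ih1 ih2 =>
    intro b v hv hb _ hbc
    rcases hij with hij | hij
    · have : ⁅x, y⁆ = 0 := ih2 i x (Gen_mem h g1) hi hj (by omega)
      rw [this, lie_zero]
    · have e : ⁅v, ⁅x, y⁆⁆ = ⁅⁅v, x⁆, y⁆ - ⁅⁅v, y⁆, x⁆ := by
        rw [leibniz_lie v x y, ← lie_skew x ⁅v, y⁆]; abel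
      have e1 : ⁅⁅v, x⁆, y⁆ = 0 := by
        by_cases hh : b + i ≤ n
        · rw [ih1 b v hv hb hi hh, zero_lie]
        · exact ih2 (b + i - n) _ (h.mul b i _ v x hb hi (by omega) hv (Gen_mem h g1)
            (by omega)) (by omega) hj (by omega)
      have e2 : ⁅⁅v, y⁆, x⁆ = 0 := by
        by_cases hh : b + j ≤ n
        · rw [ih2 b v hv hb hj hh, zero_lie]
        · exact ih1 (b + j - n) _ (h.mul b j _ v y hb hj (by omega) hv (Gen_mem h g2)
            (by omega)) (by omega) hi (by omega)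
      rw [e, e1, e2, sub_zero]
  | zero => intro b v _ _ _ _; rw [lie_zero]
  | add _ _ ih1 ih2 =>
    intro b v hv hb hc hbc
    rw [lie_add, ih1 b v hv hb hc hbc, ih2 b v hv hb hc hbc, add_zero]
  | neg _ ih =>
    intro b v hv hb hc hbc
    rw [lie_neg, ih b v hv hb hc hbc, neg_zero]

/-- mirror index -/
def mi (n i : ℕ) : ℕ := if i = 0 then 0 else n - i

theorem mi_lt {n i : ℕ} (hn : 0 < n) : mi n i < n := by
  unfold mi; split_ifs <;> omega

theorem mi_mi {n i : ℕ} (hi : i < n) : mi n (mi n i) = i := by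
  unfold mi; split_ifs <;> omega

theorem mi_add {n i j c : ℕ} (hi : i < n) (hj : j < n) (hc : c < n)
    (hij : i + j = c ∨ i + j = c + n) :
    mi n i + mi n j = mi n c ∨ mi n i + mi n j = mi n c + n := by
  unfold mi; split_ifs <;> omega

/-- mirrored family -/
def mir (n : ℕ) (X : ℕ → AddSubgroup L) (i : ℕ) : AddSubgroup L := X (mi n i)

theorem GF_mir {n : ℕ} {X : ℕ → AddSubgroup L} (h : GF n X) (hn : 0 < n) : GF n (mir n X) where
  zero := fun x hx => h.zero x (by simpa [mir, mi] using hx)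
  mul := fun _ _ _ _ _ hi hj hc hx hy hij =>
    h.mul _ _ _ _ _ (mi_lt hn) (mi_lt hn) (mi_lt hn) hx hy (mi_add hi hj hc hij)

theorem D_mirror {n : ℕ} (hn : 0 < n) {X Y : ℕ → AddSubgroup L}
    (h : ∀ i, i < n → X i ≤ Y (mi n i)) : ∀ c, c < n → D n X c ≤ D n Y (mi n c) := by
  intro c hc
  refine D_induction ?_
  intro i j x y hi hj hx hy hij
  exact D_mul (mi_lt hn) (mi_lt hn) (h i hi hx) (h j hj hy) (mi_add hi hj hc hij)

theorem iter_mirror {n : ℕ} (hn : 0 < n) {X : ℕ → AddSubgroup L} (d : ℕ) :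
    ∀ c, c < n → (D n)^[d] X c ≤ (D n)^[d] (mir n X) (mi n c) := by
  induction d with
  | zero =>
    intro c hc x hx
    show x ∈ X (mi n (mi n c))
    rw [mi_mi hc]; exact hx
  | succ d ih =>
    rw [Function.iterate_succ_apply', Function.iterate_succ_apply']
    exact D_mirror hn ih

/-- if `P(d,n-2)` holds then the `d`-th graded derived subring is central -/
theorem central {n d : ℕ} (hn : 2 ≤ n) (hP : P L n d (n - 2)) {X : ℕ → AddSubgroup L}
    (h : GF n X) {b c : ℕ} (hb : b < n) (hc : c < n) {v x : L} (hv : v ∈ X b)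
    (hx : x ∈ (D n)^[d] X c) : ⁅v, x⁆ = 0 := by
  by_cases hbc : b + c ≤ n
  · exact kill h (by omega) (hP X h c hc x hx) b v hv hb hc hbc
  · have hx' := iter_mirror (by omega) d c hc hx
    have hv' : v ∈ mir n X (mi n b) := by
      show v ∈ X (mi n (mi n b))
      rw [mi_mi hb]; exact hv
    refine kill (GF_mir h (by omega)) (by omega)
      (hP _ (GF_mir h (by omega)) (mi n c) (mi_lt (by omega)) x hx') (mi n b) v hv'
      (mi_lt (by omega)) (mi_lt (by omega)) ?_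
    unfold mi; split_ifs <;> omega

theorem der_central {n d : ℕ} (hn : 2 ≤ n) (hP : P L n d (n - 2)) {X : ℕ → AddSubgroup L}
    (h : GF n X) : brk (tot n X) (der (tot n X) d) = ⊥ := by
  rw [eq_bot_iff]
  refine (brk_mono le_rfl (der_tot X (by omega) d)).trans ?_
  refine brk_iSup _ _ _ ?_
  intro i j v hv x hx
  rw [AddSubgroup.mem_bot]
  exact central hn hP h i.2 j.2 hv hx

theorem main {n : ℕ} (hn : 6 ≤ n) {X : ℕ → AddSubgroup L} (h : GF n X) :
    brk (tot n X) (der (tot n X) (2 ^ (n - 3) - 1)) = ⊥ := by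
  refine der_central (by omega) ?_ h
  have := P_all (L := L) hn (n - 5) (by omega)
  have e1 : n - 5 + 2 = n - 3 := by omega
  have e2 : n - 5 + 3 = n - 2 := by omega
  rwa [e1, e2] at this

/-- the `ZMod n`-graded version -/
theorem main_zmod {n : ℕ} (hn : 6 ≤ n) (G : ZMod n → AddSubgroup L) (hG : ⨆ i, G i = ⊤)
    (h0 : G 0 = ⊥) (hbr : ∀ i j, ∀ x ∈ G i, ∀ y ∈ G j, ⁅x, y⁆ ∈ G (i + j)) :
    brk (⊤ : AddSubgroup L) (der (⊤ : AddSubgroup L) (2 ^ (n - 3) - 1)) = ⊥ := by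
  have : NeZero n := ⟨by omega⟩
  have hX : GF n (fun i : ℕ => G (i : ZMod n)) := by
    refine ⟨?_, ?_⟩
    · intro x hx
      simpa [h0] using hx
    · intro i j c x y _ _ _ hx hy hij
      have := hbr _ _ x hx y hy
      have e : ((i : ZMod n) + (j : ZMod n)) = (c : ZMod n) := by
        rcases hij with hij | hij
        · rw [← Nat.cast_add, hij]
        · rw [← Nat.cast_add, hij]; simp
      show ⁅x, y⁆ ∈ G (c : ZMod n)
      rw [← e]; exact this
  have ht : tot n (fun i : ℕ => G (i : ZMod n)) = ⊤ := by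
    rw [eq_top_iff, ← hG]
    refine iSup_le ?_
    intro i
    refine le_trans ?_ (le_iSup (fun j : Fin n => G ((j : ℕ) : ZMod n)) ⟨i.val, ZMod.val_lt i⟩)
    simp
  rw [← ht]
  exact main hn hX

theorem main_der {n : ℕ} (hn : 6 ≤ n) (G : ZMod n → AddSubgroup L) (hG : ⨆ i, G i = ⊤)
    (h0 : G 0 = ⊥) (hbr : ∀ i j, ∀ x ∈ G i, ∀ y ∈ G j, ⁅x, y⁆ ∈ G (i + j)) :
    der (⊤ : AddSubgroup L) (2 ^ (n - 3)) = ⊥ := by
  have h1 := main_zmod hn G hG h0 hbr
  have e : 2 ^ (n - 3) = (2 ^ (n - 3) - 1) + 1 := by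
    have : 1 ≤ 2 ^ (n - 3) := Nat.one_le_two_pow
    omega
  rw [e, eq_bot_iff]
  exact (brk_mono le_top le_rfl).trans h1.le

end Pool.Agent.Helper869_KR
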