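import Pool.Agent.Helper869_KR.Base

namespace Pool.Agent.Helper869_KR

variable {L : Type*} [LieRing L]

/-- bracket with a zero factor -/
theorem triv {n k c i j : ℕ} {X : ℕ → AddSubgroup L} (h : GF n X) {x y : L} (hx : x ∈ X i)
    (hy : y ∈ X j) (hij : i = 0 ∨ j = 0) : Gen n X k c ⁅x, y⁆ := by
  rcases hij with rfl | rfl
  · have := h.zero x hx
    subst this
    rw [zero_lie]; exact Gen.zero
  · have := h.zero y hy
    subst this
    rw [lie_zero]; exact Gen.zero

theorem GFmono {n : ℕ} {X : ℕ → AddSubgroup L} (h : GF n X) {i : ℕ} (hi : i < n) {x : L}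
    (hx : x ∈ D n X i) : x ∈ X i := D_le h hi hx

/-- product of two high-degree elements -/
theorem hh {n k c i j : ℕ} {X : ℕ → AddSubgroup L} {x y : L} (hi : i < n)
    (hj : j < n) (hc : c < n) (hki : k < i) (hkj : k < j) (hx : x ∈ X i)
    (hy : y ∈ X j) (hij : i + j = c ∨ i + j = c + n) : Gen n X k c ⁅x, y⁆ :=
  Gen.br hi hj hc hij (Gen.base hki hi hx) (Gen.base hkj hj hy)

theorem D1_ind {n : ℕ} (hn : 6 ≤ n) {X : ℕ → AddSubgroup L} (h : GF n X) {Q : AddSubgroup L}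
    (h2 : ∀ x ∈ X 2, ∀ y ∈ X (n - 1), ⁅x, y⁆ ∈ Q)
    (h3 : ∀ x ∈ X 3, ∀ y ∈ X (n - 2), ⁅x, y⁆ ∈ Q)
    (hH : ∀ u, Gen n X 3 1 u → u ∈ Q) : D n X 1 ≤ Q := by
  refine D_induction ?_
  intro i j x y hi hj hx hy hij
  by_cases a0 : i = 0 ∨ j = 0
  · exact hH _ (triv h hx hy a0)
  by_cases a1 : i = 2
  · subst a1
    obtain rfl : j = n - 1 := by omega
    exact h2 x hx y hy
  by_cases a2 : j = 2
  · subst a2
    obtain rfl : i = n - 1 := by omega
    rw [← lie_skew]; exact Q.neg_mem (h2 y hy x hx)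
  by_cases a3 : i = 3
  · subst a3
    obtain rfl : j = n - 2 := by omega
    exact h3 x hx y hy
  by_cases a4 : j = 3
  · subst a4
    obtain rfl : i = n - 2 := by omega
    rw [← lie_skew]; exact Q.neg_mem (h3 y hy x hx)
  exact hH _ (hh hi hj (by omega) (by omega) (by omega) hx hy hij)

theorem D2_ind {n : ℕ} (hn : 6 ≤ n) {X : ℕ → AddSubgroup L} (h : GF n X) {Q : AddSubgroup L}
    (h1 : ∀ x ∈ X 1, ∀ y ∈ X 1, ⁅x, y⁆ ∈ Q)
    (h3 : ∀ x ∈ X 3, ∀ y ∈ X (n - 1), ⁅x, y⁆ ∈ Q)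
    (hH : ∀ u, Gen n X 3 2 u → u ∈ Q) : D n X 2 ≤ Q := by
  refine D_induction ?_
  intro i j x y hi hj hx hy hij
  by_cases a0 : i = 0 ∨ j = 0
  · exact hH _ (triv h hx hy a0)
  by_cases a1 : i = 1 ∧ j = 1
  · obtain ⟨rfl, rfl⟩ := a1
    exact h1 x hx y hy
  by_cases a3 : i = 3
  · subst a3
    obtain rfl : j = n - 1 := by omega
    exact h3 x hx y hy
  by_cases a4 : j = 3
  · subst a4
    obtain rfl : i = n - 1 := by omega
    rw [← lie_skew]; exact Q.neg_mem (h3 y hy x hx)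
  exact hH _ (hh hi hj (by omega) (by omega) (by omega) hx hy hij)

theorem D3_ind {n : ℕ} (hn : 6 ≤ n) {X : ℕ → AddSubgroup L} (h : GF n X) {Q : AddSubgroup L}
    (h1 : ∀ x ∈ X 1, ∀ y ∈ X 2, ⁅x, y⁆ ∈ Q)
    (hH : ∀ u, Gen n X 3 3 u → u ∈ Q) : D n X 3 ≤ Q := by
  refine D_induction ?_
  intro i j x y hi hj hx hy hij
  by_cases a0 : i = 0 ∨ j = 0
  · exact hH _ (triv h hx hy a0)
  by_cases a1 : i = 1 ∧ j = 2
  · obtain ⟨rfl, rfl⟩ := a1
    exact h1 x hx y hy
  by_cases a2 : i = 2 ∧ j = 1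
  · obtain ⟨rfl, rfl⟩ := a2
    rw [← lie_skew]; exact Q.neg_mem (h1 y hy x hx)
  exact hH _ (hh hi hj (by omega) (by omega) (by omega) hx hy hij)

section
variable {n : ℕ} {X : ℕ → AddSubgroup L}

theorem F4 (hn : 6 ≤ n) (h : GF n X) {Q : AddSubgroup L}
    (q1 : ∀ x ∈ X 1, ∀ y ∈ X 1, ∀ z ∈ X 1, ⁅x, ⁅y, z⁆⁆ ∈ Q)
    (q2 : ∀ u, Gen n X 3 3 u → u ∈ Q) {x u : L} (hx : x ∈ X 1) (hu : u ∈ D n X 2) :
    ⁅x, u⁆ ∈ Q := by
  have key : D n X 2 ≤ comL x Q := by
    refine D2_ind hn h ?_ ?_ ?_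
    · intro y hy z hz
      exact q1 x hx y hy z hz
    · intro y hy z hz
      show ⁅x, ⁅y, z⁆⁆ ∈ Q
      have e := comm h (by omega) (by omega) hx hz (by omega)
      rw [leibniz_lie x y z, e, lie_zero, add_zero]
      exact q2 _ (hh (i := 4) (j := n - 1) (by omega) (by omega) (by omega) (by omega) (by omega)
        (h.mul 1 3 4 x y (by omega) (by omega) (by omega) hx hy (by omega)) hz (by omega))
    · intro u hu
      exact q2 _ (F1 h (by omega) hx hu 3 (by omega) (by omega) (by omega))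
  exact key hu

theorem F5 (hn : 6 ≤ n) (h : GF n X) {Q : AddSubgroup L}
    (q1 : ∀ x ∈ X 1, ∀ y ∈ X 1, ∀ z ∈ X 1, ⁅x, ⁅y, z⁆⁆ ∈ Q)
    (q2 : ∀ u, Gen n X 3 3 u → u ∈ Q) : D n (D n X) 3 ≤ Q := by
  have hD : GF n (D n X) := GF_D h (by omega)
  refine D3_ind hn hD ?_ ?_
  · intro x hx y hy
    exact F4 hn h q1 q2 (GFmono h (by omega) hx) hy
  · intro u hu
    exact q2 _ (Gen_D h hu)

theorem F7 (hn : 6 ≤ n) (h : GF n X) {u w : L} (hu : u ∈ D n (D n X) 3) (hw : w ∈ X (n - 1)) :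
    Gen n X 3 2 ⁅u, w⁆ := by
  have key : D n (D n X) 3 ≤ comR w (GenS n X 3 2) := by
    refine F5 hn h ?_ ?_
    · intro x hx y hy z hz
      show Gen n X 3 2 ⁅⁅x, ⁅y, z⁆⁆, w⁆
      have e1 := comm h (by omega) (by omega) hx hw (by omega)
      have e2 := comm h (by omega) (by omega) hy hw (by omega)
      have e3 := comm h (by omega) (by omega) hz hw (by omega)
      have e4 : ⁅⁅y, z⁆, w⁆ = 0 := by rw [lie_lie, e3, e2]; simp
      rw [lie_lie, e4, e1]
      simp only [lie_zero, sub_zero]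
      exact Gen.zero
    · intro u hu
      exact Gen.br (i := 3) (j := n - 1) (by omega) (by omega) (by omega) (by omega) hu
        (Gen.base (by omega) (by omega) hw)
  exact key hu

theorem F9 (hn : 6 ≤ n) (h : GF n X) {u w : L} (hu : u ∈ D n (D n X) 3) (hw : w ∈ X (n - 2)) :
    Gen n X 3 1 ⁅u, w⁆ := by
  have key : D n (D n X) 3 ≤ comR w (GenS n X 3 1) := by
    refine F5 hn h ?_ ?_
    · intro x hx y hy z hz
      show Gen n X 3 1 ⁅⁅x, ⁅y, z⁆⁆, w⁆
      have m1 : ⁅y, z⁆ ∈ X 2 := h.mul 1 1 2 y z (by omega) (by omega) (by omega) hy hz (by omega)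
      have e1 := comm h (by omega) (by omega) m1 hw (by omega)
      have m2 : ⁅x, w⁆ ∈ X (n - 1) :=
        h.mul 1 (n - 2) (n - 1) x w (by omega) (by omega) (by omega) hx hw (by omega)
      have e2 := comm h (by omega) (by omega) hy m2 (by omega)
      have e3 := comm h (by omega) (by omega) hz m2 (by omega)
      have e4 : ⁅⁅y, z⁆, ⁅x, w⁆⁆ = 0 := by rw [lie_lie, e3, e2]; simp
      rw [lie_lie, e1, e4]
      simp only [lie_zero, sub_zero]
      exact Gen.zero
    · intro u hu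
      exact Gen.br (i := 3) (j := n - 2) (by omega) (by omega) (by omega) (by omega) hu
        (Gen.base (by omega) (by omega) hw)
  exact key hu

theorem F10 (hn : 6 ≤ n) (h : GF n X) {u w : L} (hu : u ∈ D n (D n X) 2) (hw : w ∈ X (n - 1)) :
    Gen n X 3 1 ⁅u, w⁆ := by
  have hD : GF n (D n X) := GF_D h (by omega)
  have key : D n (D n X) 2 ≤ comR w (GenS n X 3 1) := by
    refine D2_ind hn hD ?_ ?_ ?_
    · intro x hx y hy
      show Gen n X 3 1 ⁅⁅x, y⁆, w⁆
      have e1 := comm h (by omega) (by omega) (GFmono h (by omega) hx) hw (by omega)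
      have e2 := comm h (by omega) (by omega) (GFmono h (by omega) hy) hw (by omega)
      rw [lie_lie, e1, e2]
      simp only [lie_zero, sub_zero]
      exact Gen.zero
    · intro x hx y hy
      have hy' : y ∈ X (n - 1) := GFmono h (by omega) hy
      have key2 : D n X 3 ≤ comR y (comR w (GenS n X 3 1)) := by
        refine D3_ind hn h ?_ ?_
        · intro a ha b hb
          show Gen n X 3 1 ⁅⁅⁅a, b⁆, y⁆, w⁆
          have e1 := comm h (by omega) (by omega) ha hy' (by omega)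
          have e2 := comm h (by omega) (by omega) ha hw (by omega)
          have m1 : ⁅b, y⁆ ∈ X 1 :=
            h.mul 2 (n - 1) 1 b y (by omega) (by omega) (by omega) hb hy' (by omega)
          have e3 := comm h (by omega) (by omega) m1 hw (by omega)
          have e4 : ⁅⁅a, b⁆, y⁆ = ⁅a, ⁅b, y⁆⁆ := by rw [lie_lie, e1]; simp
          have e5 : ⁅⁅a, ⁅b, y⁆⁆, w⁆ = 0 := by rw [lie_lie, e2, e3]; simp
          rw [e4, e5]; exact Gen.zero
        · intro u hu
          exact Gen.br (i := 2) (j := n - 1) (by omega) (by omega) (by omega) (by omega)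
            (Gen.br (i := 3) (j := n - 1) (by omega) (by omega) (by omega) (by omega) hu
              (Gen.base (by omega) (by omega) hy'))
            (Gen.base (by omega) (by omega) hw)
      exact key2 hx
    · intro u hu
      exact Gen.br (i := 2) (j := n - 1) (by omega) (by omega) (by omega) (by omega) (Gen_D h hu)
        (Gen.base (by omega) (by omega) hw)
  exact key hu

/-- lemma A8a -/
theorem A8a (hn : 6 ≤ n) (h : GF n X) {a x y : L} (ha : a ∈ X 1) (hx : x ∈ D n X 2)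
    (hy : y ∈ X (n - 1)) : Gen n X 3 2 ⁅a, ⁅x, y⁆⁆ := by
  have key : D n X 2 ≤ comR y (comL a (GenS n X 3 2)) := by
    refine D2_ind hn h ?_ ?_ ?_
    · intro p hp q hq
      show Gen n X 3 2 ⁅a, ⁅⁅p, q⁆, y⁆⁆
      have e1 := comm h (by omega) (by omega) hp hy (by omega)
      have e2 := comm h (by omega) (by omega) hq hy (by omega)
      rw [lie_lie p q y, e1, e2]
      simp only [lie_zero, sub_zero]
      exact Gen.zero
    · intro p hp q hq
      show Gen n X 3 2 ⁅a, ⁅⁅p, q⁆, y⁆⁆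
      have e1 := comm h (by omega) (by omega) ha hq (by omega)
      have e2 := comm h (by omega) (by omega) ha hy (by omega)
      have e3 : ⁅a, ⁅⁅p, q⁆, y⁆⁆ = ⁅⁅⁅a, p⁆, q⁆, y⁆ := by
        rw [leibniz_lie a ⁅p, q⁆ y, e2, leibniz_lie a p q, e1]; simp
      rw [e3]
      have m1 : ⁅a, p⁆ ∈ X 4 :=
        h.mul 1 3 4 a p (by omega) (by omega) (by omega) ha hp (by omega)
      exact Gen.br (i := 3) (j := n - 1) (by omega) (by omega) (by omega) (by omega)
        (hh (i := 4) (j := n - 1) (by omega) (by omega) (by omega) (by omega) (by omega) m1 hq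
          (by omega))
        (Gen.base (by omega) (by omega) hy)
    · intro u hu
      show Gen n X 3 2 ⁅a, ⁅u, y⁆⁆
      refine F1 h (by omega) ha (c := 1) ?_ 2 (by omega) (by omega) (by omega)
      exact Gen.br (i := 2) (j := n - 1) (by omega) (by omega) (by omega) (by omega) hu
        (Gen.base (by omega) (by omega) hy)
  exact key hx

/-- degree-one elements bracketed with `H_1` -/
theorem B1 (hn : 6 ≤ n) (h : GF n X) {a b : L} (ha : a ∈ X 1) (hb : Gen n X 3 1 b) :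
    Gen n X 3 2 ⁅a, b⁆ :=
  F1 h (by omega) ha hb 2 (by omega) (by omega) (by omega)

theorem H3w (hn : 6 ≤ n) {x y : L} (hx : Gen n X 3 3 x) (hy : y ∈ X (n - 2)) :
    Gen n X 3 1 ⁅x, y⁆ :=
  Gen.br (i := 3) (j := n - 2) (by omega) (by omega) (by omega) (by omega) hx
    (Gen.base (by omega) (by omega) hy)

theorem F8aux (hn : 6 ≤ n) (h : GF n X) {p q y p' q' y' : L} (hp : p ∈ X 1) (hq : q ∈ X 2)
    (hy : y ∈ X (n - 2)) (hp' : p' ∈ X 1) (hq' : q' ∈ X 2) (hy' : y' ∈ X (n - 2)) :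
    Gen n X 3 2 ⁅⁅⁅p', q'⁆, y'⁆, ⁅⁅p, q⁆, y⁆⁆ := by
  have m1 : ⁅p', q'⁆ ∈ X 3 :=
    h.mul 1 2 3 _ _ (by omega) (by omega) (by omega) hp' hq' (by omega)
  have ma : ⁅⁅p', q'⁆, y'⁆ ∈ X 1 :=
    h.mul 3 (n - 2) 1 _ _ (by omega) (by omega) (by omega) m1 hy' (by omega)
  have m2 : ⁅p, q⁆ ∈ X 3 :=
    h.mul 1 2 3 _ _ (by omega) (by omega) (by omega) hp hq (by omega)
  have z1 : ⁅q, y⁆ = 0 := comm h (by omega) (by omega) hq hy (by omega)
  have z2 : ⁅q, y'⁆ = 0 := comm h (by omega) (by omega) hq hy' (by omega)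
  -- ⁅q, a⁆
  have c1 : ⁅q, ⁅⁅p', q'⁆, y'⁆⁆ = ⁅⁅q, ⁅p', q'⁆⁆, y'⁆ := by
    rw [leibniz_lie q ⁅p', q'⁆ y', z2, lie_zero, add_zero]
  have m5 : ⁅q, ⁅p', q'⁆⁆ ∈ X 5 :=
    h.mul 2 3 5 _ _ (by omega) (by omega) (by omega) hq m1 (by omega)
  have g1 : Gen n X 3 3 ⁅q, ⁅⁅p', q'⁆, y'⁆⁆ := by
    rw [c1]
    exact hh (i := 5) (j := n - 2) (by omega) (by omega) (by omega) (by omega) (by omega) m5 hy'
      (by omega)
  generalize ⁅⁅p', q'⁆, y'⁆ = a at *
  have c2 : ⁅q, ⁅a, y⁆⁆ = ⁅⁅q, a⁆, y⁆ := by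
    rw [leibniz_lie q a y, z1, lie_zero, add_zero]
  have mu : ⁅a, y⁆ ∈ X (n - 1) :=
    h.mul 1 (n - 2) (n - 1) _ _ (by omega) (by omega) (by omega) ma hy (by omega)
  have z3 : ⁅p, ⁅a, y⁆⁆ = 0 := comm h (by omega) (by omega) hp mu (by omega)
  have c3 : ⁅⁅p, q⁆, ⁅a, y⁆⁆ = ⁅p, ⁅⁅q, a⁆, y⁆⁆ := by
    rw [lie_lie p q ⁅a, y⁆, z3, lie_zero, sub_zero, c2]
  rw [leibniz_lie a ⁅p, q⁆ y, c3]
  refine Gen.add ?_ (B1 hn h hp (H3w hn g1 hy))
  have m4 : ⁅a, ⁅p, q⁆⁆ ∈ X 4 :=
    h.mul 1 3 4 _ _ (by omega) (by omega) (by omega) ma m2 (by omega)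
  exact hh (i := 4) (j := n - 2) (by omega) (by omega) (by omega) (by omega) (by omega) m4 hy
    (by omega)

theorem F8 (hn : 6 ≤ n) (h : GF n X) {a b : L} (ha : a ∈ D n (D n X) 1)
    (hb : b ∈ D n (D n X) 1) : Gen n X 3 2 ⁅a, b⁆ := by
  have hD : GF n (D n X) := GF_D h (by omega)
  have ha1 : a ∈ X 1 := GFmono h (by omega) (GFmono hD (by omega) ha)
  have key : D n (D n X) 1 ≤ comL a (GenS n X 3 2) := by
    refine D1_ind hn hD ?_ ?_ ?_
    · intro x hx y hy
      exact A8a hn h ha1 hx (GFmono h (by omega) hy)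
    · intro x hx y hy
      have hy' : y ∈ X (n - 2) := GFmono h (by omega) hy
      have key2 : D n X 3 ≤ comR y (comL a (GenS n X 3 2)) := by
        refine D3_ind hn h ?_ ?_
        · intro p hp q hq
          show Gen n X 3 2 ⁅a, ⁅⁅p, q⁆, y⁆⁆
          have m2 : ⁅p, q⁆ ∈ X 3 :=
            h.mul 1 2 3 _ _ (by omega) (by omega) (by omega) hp hq (by omega)
          have mb : ⁅⁅p, q⁆, y⁆ ∈ X 1 :=
            h.mul 3 (n - 2) 1 _ _ (by omega) (by omega) (by omega) m2 hy' (by omega)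
          have key3 : D n (D n X) 1 ≤ comR ⁅⁅p, q⁆, y⁆ (GenS n X 3 2) := by
            refine D1_ind hn hD ?_ ?_ ?_
            · intro x' hx' y' hy''
              exact Gen_skew (A8a hn h mb hx' (GFmono h (by omega) hy''))
            · intro x' hx' y' hy''
              have hy3 : y' ∈ X (n - 2) := GFmono h (by omega) hy''
              have key4 : D n X 3 ≤ comR y' (comR ⁅⁅p, q⁆, y⁆ (GenS n X 3 2)) := by
                refine D3_ind hn h ?_ ?_
                · intro p' hp' q' hq'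
                  exact F8aux hn h hp hq hy' hp' hq' hy3
                · intro u hu
                  exact Gen_skew (B1 hn h mb (H3w hn hu hy3))
              exact key4 hx'
            · intro u hu
              exact Gen_skew (B1 hn h mb (Gen_D h hu))
          exact key3 ha
        · intro u hu
          exact B1 hn h ha1 (H3w hn hu hy')
      exact key2 hx
    · intro u hu
      exact B1 hn h ha1 (Gen_D h hu)
  exact key hb

end

theorem P_three {n : ℕ} (hn : 6 ≤ n) : P L n 3 3 := by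
  intro X h c hc x hx
  have hx2 : x ∈ D n (D n (D n X)) c := hx
  have hD : GF n (D n X) := GF_D h (by omega)
  have hDD : GF n (D n (D n X)) := GF_D hD (by omega)
  have hDDD : GF n (D n (D n (D n X))) := GF_D hDD (by omega)
  have dd : ∀ i, i < n → ∀ x ∈ D n (D n X) i, x ∈ X i :=
    fun i hi x hx => GFmono h hi (GFmono hD hi hx)
  by_cases c0 : c = 0
  · subst c0
    have := hDDD.zero x hx2
    subst this; exact Gen.zero
  by_cases c1 : c = 1
  · subst c1
    have key : D n (D n (D n X)) 1 ≤ GenS n X 3 1 := by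
      refine D1_ind hn hDD ?_ ?_ ?_
      · intro x hx y hy
        exact F10 hn h hx (dd _ (by omega) _ hy)
      · intro x hx y hy
        exact F9 hn h hx (dd _ (by omega) _ hy)
      · intro u hu
        exact Gen_D h (Gen_D hD hu)
    exact key hx2
  by_cases c2 : c = 2
  · subst c2
    have key : D n (D n (D n X)) 2 ≤ GenS n X 3 2 := by
      refine D2_ind hn hDD ?_ ?_ ?_
      · intro x hx y hy
        exact F8 hn h hx hy
      · intro x hx y hy
        exact F7 hn h hx (dd _ (by omega) _ hy)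
      · intro u hu
        exact Gen_D h (Gen_D hD hu)
    exact key hx2
  by_cases c3 : c = 3
  · subst c3
    exact claimA' h (by omega) (fun c hc x hx => P_two (by omega) X h c hc x hx) x hx2
  · exact Gen.base (by omega) hc (iter_le h (by omega) 3 hc hx)

theorem P_all {n : ℕ} (hn : 6 ≤ n) (m : ℕ) (hm : m + 3 < n) :
    P L n (2 ^ (m + 2) - 1) (m + 3) := by
  induction m with
  | zero => exact P_three hn
  | succ m ih =>
    have := P_step (k := m + 3) (by omega) (ih (by omega))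
    have e : 2 * (2 ^ (m + 2) - 1) + 1 = 2 ^ (m + 1 + 2) - 1 := by
      have h1 : 1 ≤ 2 ^ (m + 2) := Nat.one_le_two_pow
      have h2 : 2 ^ (m + 1 + 2) = 2 * 2 ^ (m + 2) := by ring
      rw [h2]
      generalize 2 ^ (m + 2) = t at *
      omega
    rw [e] at this
    exact this

end Pool.Agent.Helper869_KR
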